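import Pool.Agent.H19.TM.Stm3

/-!
# Project TM3: the bounds for `Gd` (`S_G2`)
-/

set_option autoImplicit false

namespace Pool.Agent.H93.TM

open Finset Pool.Agent.Y862.GM Pool.Agent.H19.TM

theorem Gd_nonneg (P : Finset ℕ) (N : ℕ) : 0 ≤ Gd P N := by
  unfold Gd
  exact mul_nonneg (sq_nonneg _) (sum_nonneg fun n _ => by positivity)

theorem Gd_zero (P : Finset ℕ) : Gd P 0 = 0 := by
  unfold Gd
  simp

theorem Gd_empty {N : ℕ} (hN : 1 ≤ N) : Gd ∅ N = 1 := by
  have h1 : (Icc 1 N).filter (fun n => n.primeFactors ⊆ ∅) = {1} := by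
    ext n
    rw [mem_filter, mem_Icc, subset_empty, Nat.primeFactors_eq_empty, mem_singleton]
    omega
  have h2 : tau4 1 = 1 := by
    unfold tau4
    simp
  unfold Gd
  rw [h1, sum_singleton, h2]
  simp [V]

/-- the weights -/
noncomputable def wt (p k : ℕ) : ℝ := (1 - 1 / (p : ℝ)) ^ 4 * (((k + 3).choose 3 : ℝ) / (p : ℝ) ^ k)

section

variable {p : ℕ} (hp : p.Prime)
include hp

theorem x_lt : ‖1 / (p : ℝ)‖ < 1 := by
  have h1 : (1 : ℝ) < p := by exact_mod_cast hp.one_lt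
  rw [Real.norm_of_nonneg (by positivity), div_lt_one (by linarith)]
  exact h1

theorem wt_nonneg (k : ℕ) : 0 ≤ wt p k := by
  unfold wt
  have h1 : (1 : ℝ) < p := by exact_mod_cast hp.one_lt
  exact mul_nonneg (by positivity) (by positivity)

theorem one_sub_ne : (1 - 1 / (p : ℝ)) ≠ 0 := by
  have h1 : (1 : ℝ) < p := by exact_mod_cast hp.one_lt
  have h2 : 1 / (p : ℝ) < 1 := by
    rw [div_lt_one (by linarith)]
    exact h1
  linarith

theorem wt_sum : HasSum (wt p) 1 := by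
  have h1 := hasSum_choose_mul_geometric_of_norm_lt_one 3 (x_lt hp)
  have h2 := h1.mul_left ((1 - 1 / (p : ℝ)) ^ 4)
  have h3 : (1 - 1 / (p : ℝ)) ^ 4 * (1 / (1 - 1 / (p : ℝ)) ^ (3 + 1)) = 1 := by
    have := one_sub_ne hp
    field_simp
  rw [h3] at h2
  refine h2.congr_fun ?_
  intro k
  unfold wt
  rw [one_div, inv_pow, div_eq_mul_inv]

theorem wt_mean : HasSum (fun k : ℕ => wt p k * k) (4 / ((p : ℝ) - 1)) := by
  have hp1 : (1 : ℝ) < p := by exact_mod_cast hp.one_lt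
  have h1 := hasSum_choose_mul_geometric_of_norm_lt_one 4 (x_lt hp)
  have h2 := h1.mul_left (4 * (1 - 1 / (p : ℝ)) ^ 4 * (1 / (p : ℝ)))
  have h3 : 4 * (1 - 1 / (p : ℝ)) ^ 4 * (1 / (p : ℝ)) * (1 / (1 - 1 / (p : ℝ)) ^ (4 + 1)) =
      4 / ((p : ℝ) - 1) - ∑ i ∈ range 1, wt p i * (i : ℝ) := by
    have h4 := one_sub_ne hp
    have h5 : (p : ℝ) ≠ 0 := by linarith
    have h6 : (p : ℝ) - 1 ≠ 0 := by linarith
    rw [sum_range_one, Nat.cast_zero, mul_zero, sub_zero]
    have h7 : (1 : ℝ) - 1 / p = (p - 1) / p := by field_simp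
    rw [h7, div_pow, div_pow]
    field_simp
    ring
  rw [h3] at h2
  refine (hasSum_nat_add_iff' 1).1 (h2.congr_fun ?_)
  intro k
  unfold wt
  have h8 : ((k + 4).choose 4 : ℝ) * 4 = ((k + 4).choose 3 : ℝ) * (k + 1) := by
    have h9 := Nat.choose_succ_right_eq (k + 4) 3
    have h10 : k + 4 - 3 = k + 1 := by omega
    rw [h10] at h9
    exact_mod_cast h9
  have h11 : (k + 1 + 3) = k + 4 := by ring
  rw [h11]
  push_cast
  rw [one_div, inv_pow, pow_succ (p : ℝ) k, div_eq_mul_inv, mul_inv]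
  linear_combination (-(1 - (p : ℝ)⁻¹) ^ 4 * (((p : ℝ) ^ k)⁻¹ * (p : ℝ)⁻¹)) * h8

/-- the recursion as a sum over all `k` -/
theorem Gd_hasSum (hG1 : S_G1) {P : Finset ℕ} (hP : ∀ q ∈ P, q.Prime) (hpP : p ∉ P) (N : ℕ) :
    HasSum (fun k => wt p k * Gd P (N / p ^ k)) (Gd (insert p P) N) := by
  rw [hG1 P hP p hp hpP N, mul_sum]
  have h1 : ∀ k, (1 - 1 / (p : ℝ)) ^ 4 * (((k + 3).choose 3 : ℝ) / (p : ℝ) ^ k *
      Gd P (N / p ^ k)) = wt p k * Gd P (N / p ^ k) := by
    intro k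
    unfold wt
    ring
  simp only [h1]
  refine hasSum_sum_of_ne_finset_zero fun k hk => ?_
  have h2 : N < k := by
    rw [mem_range, not_lt] at hk
    omega
  have h3 : N / p ^ k = 0 := Nat.div_eq_of_lt (h2.trans (Nat.lt_pow_self hp.one_lt))
  rw [h3, Gd_zero, mul_zero]

end

theorem Gd_le (hG1 : S_G1) (P : Finset ℕ) : (∀ q ∈ P, q.Prime) → ∀ N : ℕ, Gd P N ≤ 1 := by
  classical
  induction P using Finset.induction_on with
  | empty =>
    intro _ N
    rcases Nat.eq_zero_or_pos N with rfl | hN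
    · rw [Gd_zero]
      exact zero_le_one
    · rw [Gd_empty hN]
  | insert p P hpP ih =>
    intro hP N
    have hp := hP p (mem_insert_self p P)
    have hP' : ∀ q ∈ P, q.Prime := fun q hq => hP q (mem_insert_of_mem hq)
    refine hasSum_le (fun k => ?_) (Gd_hasSum hp hG1 hP' hpP N) (wt_sum hp)
    exact mul_le_of_le_one_right (wt_nonneg hp k) (ih hP' _)

theorem Gd_markov (hG1 : S_G1) (P : Finset ℕ) : (∀ q ∈ P, q.Prime) → ∀ N : ℕ,
    (1 - Gd P N) * Real.log (N + 1) ≤ ∑ p ∈ P, 4 * Real.log p / (p - 1) := by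
  classical
  induction P using Finset.induction_on with
  | empty =>
    intro _ N
    rw [sum_empty]
    rcases Nat.eq_zero_or_pos N with rfl | hN
    · simp
    · rw [Gd_empty hN, sub_self, zero_mul]
  | insert p P hpP ih =>
    intro hP N
    have hp := hP p (mem_insert_self p P)
    have hP' : ∀ q ∈ P, q.Prime := fun q hq => hP q (mem_insert_of_mem hq)
    have hp1 : (1 : ℝ) < p := by exact_mod_cast hp.one_lt
    rw [sum_insert hpP]
    have h1 := ((wt_sum hp).sub (Gd_hasSum hp hG1 hP' hpP N)).mul_right (Real.log (N + 1))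
    have h2 := ((wt_sum hp).mul_right (∑ p ∈ P, 4 * Real.log p / ((p : ℝ) - 1))).add
      ((wt_mean hp).mul_right (Real.log p))
    have h3 : 1 * (∑ p ∈ P, 4 * Real.log p / ((p : ℝ) - 1)) + 4 / ((p : ℝ) - 1) * Real.log p =
        4 * Real.log p / (p - 1) + ∑ p ∈ P, 4 * Real.log p / ((p : ℝ) - 1) := by ring
    rw [h3] at h2
    refine hasSum_le (fun k => ?_) h1 h2
    have h4 := ih hP' (N / p ^ k)
    have h5 := Gd_le hG1 P hP' (N / p ^ k)
    have h6 := Gd_nonneg P (N / p ^ k)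
    have hw := wt_nonneg hp k
    have h7 : Real.log (N + 1) ≤ k * Real.log p + Real.log ((N / p ^ k : ℕ) + 1) := by
      have h8 : N + 1 ≤ p ^ k * (N / p ^ k + 1) :=
        Nat.lt_mul_div_succ N (pow_pos hp.pos k)
      have h9 : ((N : ℝ) + 1) ≤ (p : ℝ) ^ k * (((N / p ^ k : ℕ) : ℝ) + 1) := by exact_mod_cast h8
      have h10 := Real.log_le_log (by positivity) h9
      rwa [Real.log_mul (by positivity) (by positivity), Real.log_pow] at h10
    have h11 : 0 ≤ k * Real.log p := mul_nonneg (Nat.cast_nonneg k) (Real.log_nonneg hp1.le)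
    have h12 : (1 - Gd P (N / p ^ k)) * Real.log (N + 1) ≤
        (∑ p ∈ P, 4 * Real.log p / ((p : ℝ) - 1)) + k * Real.log p := by
      have h13 : (1 - Gd P (N / p ^ k)) * Real.log (N + 1) ≤ (1 - Gd P (N / p ^ k)) *
          (k * Real.log p + Real.log ((N / p ^ k : ℕ) + 1)) :=
        mul_le_mul_of_nonneg_left h7 (by linarith)
      have h14 : (1 - Gd P (N / p ^ k)) * (k * Real.log p) ≤ k * Real.log p :=
        mul_le_of_le_one_left h11 (by linarith)
      nlinarith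
    have h15 := mul_le_mul_of_nonneg_left h12 hw
    calc (wt p k - wt p k * Gd P (N / p ^ k)) * Real.log (N + 1)
        = wt p k * ((1 - Gd P (N / p ^ k)) * Real.log (N + 1)) := by ring
      _ ≤ wt p k * ((∑ p ∈ P, 4 * Real.log p / ((p : ℝ) - 1)) + k * Real.log p) := h15
      _ = _ := by ring

/-- **Module G2.** -/
theorem t_G2 (hG1 : S_G1) : S_G2 :=
  ⟨fun P hP N => ⟨Gd_nonneg P N, Gd_le hG1 P hP N⟩, fun P hP N => Gd_markov hG1 P hP N⟩

end Pool.Agent.H93.TM
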