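import Pool.Agent.H19.TM.Stm2

/-!
Project TM2: the variance is bounded by a constant times the length (`S_VAR`), and the deficiency at
the primes above the length (`S_FAR`), from the recursion.
-/

set_option autoImplicit false

namespace Pool.Agent.H93.TM

open Finset Pool.Agent.Y862.GM Pool.Agent.H19.TM

lemma V_insert (P : Finset ℕ) (p : ℕ) (h : p ∉ P) :
    V (insert p P) = (1 - 1 / (p : ℝ)) ^ 2 * V P := Finset.prod_insert h

lemma sig_insert (P : Finset ℕ) (p : ℕ) (h : p ∉ P) :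
    sig (insert p P) = (1 - 1 / (p : ℝ) ^ 2) * sig P := Finset.prod_insert h

lemma Wv_nonneg (P : Finset ℕ) (N : ℕ) : 0 ≤ Wv P N :=
  div_nonneg (Finset.sum_nonneg fun _ _ => sq_nonneg _) (Finset.prod_nonneg fun _ _ => sq_nonneg _)

lemma V_nonneg (P : Finset ℕ) : 0 ≤ V P := Finset.prod_nonneg fun _ _ => sq_nonneg _

lemma V_le_one (P : Finset ℕ) (hP : ∀ p ∈ P, p.Prime) : V P ≤ 1 := by
  refine Finset.prod_le_one (fun _ _ => sq_nonneg _) fun p hp => ?_
  have h1 : (1 : ℝ) ≤ p := by exact_mod_cast (hP p hp).one_lt.le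
  have h2 : 1 / (p : ℝ) ≤ 1 := by rw [div_le_one (by linarith)]; exact h1
  have h3 : 0 ≤ 1 / (p : ℝ) := by positivity
  nlinarith

/-- the product in the bound -/
noncomputable def Pi3 (P : Finset ℕ) : ℝ := ∏ p ∈ P, (1 + 3 / (p : ℝ) ^ 2)

lemma Pi3_ge (P : Finset ℕ) : 1 ≤ Pi3 P := by
  have h : ∏ p ∈ P, (1 : ℝ) ≤ ∏ p ∈ P, (1 + 3 / (p : ℝ) ^ 2) := by
    refine Finset.prod_le_prod (fun _ _ => zero_le_one) fun p _ => ?_
    have : 0 ≤ 3 / (p : ℝ) ^ 2 := by positivity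
    linarith
  rwa [Finset.prod_const_one] at h

lemma summ : Summable fun n : ℕ => 3 / (n : ℝ) ^ 2 := by
  have h := (Real.summable_one_div_nat_pow (p := 2)).2 one_lt_two
  refine (h.mul_left 3).congr fun n => ?_
  rw [mul_one_div]

lemma Pi3_le (P : Finset ℕ) : Pi3 P ≤ Real.exp (∑' n : ℕ, 3 / (n : ℝ) ^ 2) := by
  calc Pi3 P ≤ ∏ p ∈ P, Real.exp (3 / (p : ℝ) ^ 2) := by
        refine Finset.prod_le_prod (fun p _ => by positivity) fun p _ => ?_
        have := Real.add_one_le_exp (3 / (p : ℝ) ^ 2)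
        linarith
    _ = Real.exp (∑ p ∈ P, 3 / (p : ℝ) ^ 2) := (Real.exp_sum _ _).symm
    _ ≤ _ := Real.exp_le_exp.2 (summ.sum_le_tsum _ fun n _ => by positivity)

lemma Wv_empty (N : ℕ) : Wv ∅ N = 0 := by
  simp [Wv, V]

/-- the inductive bound -/
lemma bound (h1 : S_REC) (h2 : S_CNT) (P : Finset ℕ) : (∀ p ∈ P, p.Prime) → ∀ N : ℕ,
    Wv P N ≤ 5 * Pi3 P * (1 - V P ^ 2) * N := by
  induction P using Finset.induction_on with
  | empty =>
    intro _ N
    rw [Wv_empty]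
    simp [V]
  | insert p P hp ih =>
    intro hP N
    have hpp : p.Prime := hP p (Finset.mem_insert_self p P)
    have hP' : ∀ q ∈ P, q.Prime := fun q hq => hP q (Finset.mem_insert_of_mem hq)
    have ih := ih hP'
    obtain ⟨x, hx⟩ : ∃ x : ℝ, x = 1 / (p : ℝ) := ⟨_, rfl⟩
    have hp1 : (1 : ℝ) ≤ p := by exact_mod_cast hpp.one_lt.le
    have hx0 : 0 ≤ x := by rw [hx]; positivity
    have hx1 : x ≤ 1 := by rw [hx, div_le_one (by linarith)]; exact hp1
    obtain ⟨B, hB⟩ : ∃ B : ℝ, B = 5 * Pi3 P * (1 - V P ^ 2) := ⟨_, rfl⟩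
    rw [← hB] at ih
    have hV0 := V_nonneg P
    have hV1 := V_le_one P hP'
    have hPi := Pi3_ge P
    have hB0 : 0 ≤ B := by
      rw [hB]
      have : 0 ≤ 1 - V P ^ 2 := by nlinarith
      positivity
    have hsum : ∀ M : ℕ, 1 ≤ M → ∑ a ∈ range M, Wv P (cnt M a N) ≤ B * N := by
      intro M hM
      calc ∑ a ∈ range M, Wv P (cnt M a N) ≤ ∑ a ∈ range M, B * (cnt M a N : ℝ) :=
            Finset.sum_le_sum fun a _ => ih _
        _ = B * ((∑ a ∈ range M, cnt M a N : ℕ) : ℝ) := by rw [← Finset.mul_sum]; push_cast; rfl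
        _ = B * N := by rw [(h2 M N hM).1]
    have hp2 : 1 ≤ p ^ 2 := Nat.one_le_pow _ _ hpp.pos
    have s1 := hsum p hpp.one_lt.le
    have s2 := hsum (p ^ 2) hp2
    obtain ⟨-, -, -, -, t1, -⟩ := h2 p N hpp.one_lt.le
    obtain ⟨-, -, -, -, t2, -⟩ := h2 (p ^ 2) N hp2
    have hrec := h1 P hP' p hpp hp N
    have e1 : (4 : ℝ) / p = 4 * x := by rw [hx]; ring
    have e2 : ∀ c : ℝ, c / (p : ℝ) ^ 2 = c * x ^ 2 := by intro c; rw [hx]; ring
    rw [e1, e2 2, e2 4, e2 1, e2 (th (p ^ 2) N)] at hrec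
    have hW := ih N
    have hW0 := Wv_nonneg P N
    have hN : (0 : ℝ) ≤ N := Nat.cast_nonneg N
    have c1 : 0 ≤ 4 * x - 4 * x ^ 2 := by nlinarith
    have f1 : (1 - 4 * x + 2 * x ^ 2) * Wv P N + (4 * x - 3 * x ^ 2) * (B * N) ≤
        (1 + 3 * x ^ 2) * (B * N) := by
      have hBN : 0 ≤ B * N := mul_nonneg hB0 hN
      rcases le_or_gt 0 (1 - 4 * x + 2 * x ^ 2) with h | h
      · have := mul_le_mul_of_nonneg_left hW h
        nlinarith [sq_nonneg x, mul_nonneg (sq_nonneg x) hBN]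
      · have h3 : (1 - 4 * x + 2 * x ^ 2) * Wv P N ≤ 0 := by nlinarith
        have h4 : 0 ≤ (6 * x ^ 2 - 4 * x + 1) * (B * N) :=
          mul_nonneg (by nlinarith [sq_nonneg (3 * x - 1)]) hBN
        nlinarith
    have g1 := mul_le_mul_of_nonneg_left s1 c1
    have g2 := mul_le_mul_of_nonneg_left s2 (by positivity : (0 : ℝ) ≤ 1 * x ^ 2)
    have g3 : V P ^ 2 * ((4 * x - 4 * x ^ 2) * th p N + th (p ^ 2) N * x ^ 2) ≤
        V P ^ 2 * (5 * x * N) := by
      refine mul_le_mul_of_nonneg_left ?_ (sq_nonneg _)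
      have a1 := mul_le_mul_of_nonneg_left t1 c1
      have a2 := mul_le_mul_of_nonneg_right t2 (sq_nonneg x)
      nlinarith [mul_nonneg hx0 hN, mul_nonneg (sq_nonneg x) hN]
    have hstep : Wv (insert p P) N ≤ ((1 + 3 * x ^ 2) * B + 5 * x * V P ^ 2) * N := by
      rw [hrec]
      linarith
    refine hstep.trans (mul_le_mul_of_nonneg_right ?_ hN)
    have hPi' : Pi3 (insert p P) = (1 + 3 * x ^ 2) * Pi3 P := by
      rw [← e2]; exact Finset.prod_insert hp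
    rw [hPi', V_insert P p hp, ← hx, hB]
    have k1 : (1 - x) ^ 4 ≤ 1 - x := by
      have h0 : 0 ≤ 1 - x := by linarith
      have h1' : (1 - x) ^ 3 ≤ 1 := pow_le_one₀ h0 (by linarith)
      calc (1 - x) ^ 4 = (1 - x) ^ 3 * (1 - x) := by ring
        _ ≤ 1 * (1 - x) := mul_le_mul_of_nonneg_right h1' h0
        _ = 1 - x := one_mul _
    have k2 : 5 * x * V P ^ 2 ≤ 5 * ((1 + 3 * x ^ 2) * Pi3 P) * (V P ^ 2 * (1 - (1 - x) ^ 4)) := by
      have k3 : 1 ≤ (1 + 3 * x ^ 2) * Pi3 P := by nlinarith [sq_nonneg x]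
      have k4 : x * V P ^ 2 ≤ V P ^ 2 * (1 - (1 - x) ^ 4) := by
        nlinarith [sq_nonneg (V P)]
      have k5 : 0 ≤ x * V P ^ 2 := by positivity
      have k6 := mul_le_mul k3 k4 k5 (by linarith)
      linarith
    have k7 : (1 + 3 * x ^ 2) * (5 * Pi3 P * (1 - V P ^ 2)) +
        5 * ((1 + 3 * x ^ 2) * Pi3 P) * (V P ^ 2 * (1 - (1 - x) ^ 4)) =
        5 * ((1 + 3 * x ^ 2) * Pi3 P) * (1 - ((1 - x) ^ 2 * V P) ^ 2) := by ring
    linarith

theorem t_VAR (h1 : S_REC) (h2 : S_CNT) : S_VAR := by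
  refine ⟨5 * Real.exp (∑' n : ℕ, 3 / (n : ℝ) ^ 2), ?_, fun P hP N => ⟨Wv_nonneg P N, ?_⟩⟩
  · have : 1 ≤ Real.exp (∑' n : ℕ, 3 / (n : ℝ) ^ 2) :=
      Real.one_le_exp (tsum_nonneg fun n => by positivity)
    linarith
  · refine (bound h1 h2 P hP N).trans (mul_le_mul_of_nonneg_right ?_ (Nat.cast_nonneg N))
    have a1 := Pi3_le P
    have a2 := Pi3_ge P
    have a3 : 1 - V P ^ 2 ≤ 1 := by nlinarith [sq_nonneg (V P)]
    calc 5 * Pi3 P * (1 - V P ^ 2) ≤ 5 * Pi3 P * 1 :=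
          mul_le_mul_of_nonneg_left a3 (by positivity)
      _ ≤ _ := by linarith

lemma cnt_small {M N a : ℕ} (hN : N ≤ M) (ha : a < M) : cnt M a N = if a < N then 1 else 0 := by
  unfold cnt
  have : (range N).filter (fun j => j % M = a) = if a < N then {a} else ∅ := by
    ext j
    split_ifs with h
    · simp only [mem_filter, mem_range, mem_singleton]
      constructor
      · rintro ⟨hj, hja⟩
        rwa [Nat.mod_eq_of_lt (by omega)] at hja
      · rintro rfl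
        exact ⟨h, Nat.mod_eq_of_lt ha⟩
    · simp only [mem_filter, mem_range, Finset.notMem_empty, iff_false, not_and]
      intro hj hja
      rw [Nat.mod_eq_of_lt (by omega)] at hja
      omega
  rw [this]
  split_ifs <;> simp

lemma sum_small (W : ℕ → ℝ) (h0 : W 0 = 0) {M N : ℕ} (hN : N ≤ M) :
    ∑ a ∈ range M, W (cnt M a N) = N * W 1 := by
  have : ∀ a ∈ range M, W (cnt M a N) = if a < N then W 1 else 0 := by
    intro a ha
    rw [cnt_small hN (mem_range.1 ha)]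
    split_ifs <;> simp [h0]
  rw [Finset.sum_congr rfl this, ← Finset.sum_filter, Finset.sum_const, nsmul_eq_mul]
  congr 2
  have : (range M).filter (fun a => a < N) = range N := by
    ext a; simp only [mem_filter, mem_range]; omega
  rw [this, card_range]

theorem t_FAR (h1 : S_REC) (h2 : S_CNT) (h3 : S_SIG) : S_FAR := by
  intro P hP p hpp hp N hN
  obtain ⟨x, hx⟩ : ∃ x : ℝ, x = 1 / (p : ℝ) := ⟨_, rfl⟩
  have hp0 : (p : ℝ) ≠ 0 := by exact_mod_cast hpp.ne_zero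
  have hN2 : N ≤ p ^ 2 := hN.trans (by nlinarith [hpp.one_lt])
  have hrec := h1 P hP p hpp hp N
  obtain ⟨w0, w1⟩ := h3.2.2 P hP
  rw [sum_small (Wv P) w0 hN, sum_small (Wv P) w0 hN2, w1, (h2 p N hpp.one_lt.le).2.2.2.2.2 hN,
    (h2 (p ^ 2) N (Nat.one_le_pow _ _ hpp.pos)).2.2.2.2.2 hN2] at hrec
  rw [sig_insert P p hp]
  have e1 : ∀ c : ℝ, c / (p : ℝ) = c * x := by intro c; rw [hx]; ring
  have e2 : ∀ c : ℝ, c / (p : ℝ) ^ 2 = c * x ^ 2 := by intro c; rw [hx]; ring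
  push_cast at hrec
  simp only [e1, e2] at hrec ⊢
  rw [hrec]
  have : 0 ≤ V P ^ 2 * N ^ 2 * (x ^ 2 * (2 - x) ^ 2) := by positivity
  linarith

end Pool.Agent.H93.TM
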